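import Mathlib
import Pool.Agent.Helper827.B14

/-!
Admitting a `C^1`-smooth bump function is a three-space property.

A Frechet differentiable bump on a Banach space makes the dual ball fragmented by the norm
(`B.bump_frag`); fragmentability of the dual balls of `Y` and `X ⧸ Y` passes to that of `X`
(`B.three_space_frag`); and a norm-fragmented dual ball gives a Lipschitz `C^1` bump
(`B.frechet_of_frag`).
-/

set_option autoImplicit false

namespace Pool.Agent.Results.MP_151be3_an.ThreeSpaceBump

open Pool.Agent.Helper827.B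

/-- If `Y` is a closed subspace of a real Banach space `X` and both `Y` and `X ⧸ Y` admit
`C^1`-smooth bump functions, then `X` admits a (Lipschitz) `C^1`-smooth bump function. -/
theorem result (X : Type) [NormedAddCommGroup X] [NormedSpace ℝ X] [CompleteSpace X]
    (Y : Submodule ℝ X) [hYc : IsClosed (Y : Set X)]
    (hY : ∃ b : Y → ℝ, ContDiff ℝ 1 b ∧ (∃ y, b y ≠ 0) ∧
      Bornology.IsBounded (Function.support b))
    (hQ : ∃ b : X ⧸ Y → ℝ, ContDiff ℝ 1 b ∧ (∃ q, b q ≠ 0) ∧
      Bornology.IsBounded (Function.support b)) :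
    ∃ b : X → ℝ, ContDiff ℝ 1 b ∧ (∃ K, LipschitzWith K b) ∧ (∃ x, b x ≠ 0) ∧
      Bornology.IsBounded (Function.support b) := by
  obtain ⟨f, hf, hf0, hfb⟩ := hY
  obtain ⟨g, hg, hg0, hgb⟩ := hQ
  have : CompleteSpace Y := hYc.completeSpace_coe
  have h1 : Frg Y := bump_frag (hf.differentiable (by norm_num)) hf0 hfb
  have h2 : Frg (X ⧸ Y) := bump_frag (hg.differentiable (by norm_num)) hg0 hgb
  obtain ⟨b, b1, b2, b3, b4⟩ := frechet_of_frag (three_space_frag Y h1 h2)
  exact ⟨b, b1, b2, ⟨0, b3⟩, b4⟩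

end Pool.Agent.Results.MP_151be3_an.ThreeSpaceBump
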